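import Pool.Agent.Lib.P68998c.Path

/-!
Wheels are self dual, in terms of vector configurations: if the rows of the matrix that writes the
vectors of `A` in the basis `B` (together with the unit vectors of `A`) have a wheel minor, then
`B ∪ A` has one.
-/

namespace Pool.Agent.Lib.P68998d

open Finset Pool.Agent.Lib.P68998c

universe u

section

variable {V : Type u} [AddCommGroup V] [Module (ZMod 2) V] [DecidableEq V]

/-- The dual vectors: unit vectors for the elements of `A`, rows for the others. -/
noncomputable def dv (A : Finset V) (β : V → V →ₗ[ZMod 2] ZMod 2) (x : V) : A → ZMod 2 :=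
  if h : x ∈ A then Pi.single ⟨x, h⟩ 1 else fun a => β x a

lemma dv_mem {A : Finset V} {β : V → V →ₗ[ZMod 2] ZMod 2} {x : V} (h : x ∈ A) :
    dv A β x = Pi.single ⟨x, h⟩ 1 := by rw [dv, dif_pos h]

lemma dv_notMem {A : Finset V} {β : V → V →ₗ[ZMod 2] ZMod 2} {x : V} (h : x ∉ A) (a : A) :
    dv A β x a = β x a := by rw [dv, dif_neg h]

/-- A relation of the dual vectors is given by a functional on the primal space. -/
lemma functional_of_relation {A B : Finset V} (hBA : Disjoint B A)
    {β : V → V →ₗ[ZMod 2] ZMod 2}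
    (hβ : ∀ b ∈ B, ∀ b' ∈ B, β b b' = if b = b' then 1 else 0)
    (c : V → ZMod 2) (hc : ∑ j ∈ B ∪ A, c j • dv A β j = 0) :
    ∃ ψ : V →ₗ[ZMod 2] ZMod 2, ∀ j ∈ B ∪ A, ψ j = c j := by
  classical
  refine ⟨∑ b ∈ B, c b • β b, ?_⟩
  intro j hj
  rw [LinearMap.sum_apply]
  simp only [LinearMap.smul_apply, smul_eq_mul]
  rcases Finset.mem_union.1 hj with hB | hA
  · rw [Finset.sum_eq_single j]
    · rw [hβ j hB j hB, if_pos rfl, mul_one]
    · intro b hb hbj
      rw [hβ b hb j hB, if_neg hbj, mul_zero]
    · intro h; exact absurd hB h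
  · rw [Finset.sum_union hBA] at hc
    have h1 := congrFun hc ⟨j, hA⟩
    rw [Pi.add_apply, Finset.sum_apply, Finset.sum_apply] at h1
    have h2 : ∑ b ∈ B, (c b • dv A β b) ⟨j, hA⟩ = ∑ b ∈ B, c b * β b j := by
      refine Finset.sum_congr rfl fun b hb => ?_
      rw [Pi.smul_apply, dv_notMem (Finset.disjoint_left.1 hBA hb), smul_eq_mul]
    have h3 : ∑ a ∈ A, (c a • dv A β a) ⟨j, hA⟩ = c j := by
      rw [Finset.sum_eq_single j]
      · rw [Pi.smul_apply, dv_mem hA, Pi.single_eq_same, smul_eq_mul, mul_one]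
      · intro a ha haj
        rw [Pi.smul_apply, dv_mem ha, Pi.single_eq_of_ne, smul_zero]
        intro h
        exact haj (congrArg Subtype.val h).symm
      · intro h; exact absurd hA h
    rw [h2, h3, Pi.zero_apply] at h1
    have h4 := ZModModule.add_self (c j)
    calc ∑ b ∈ B, c b * β b j = (∑ b ∈ B, c b * β b j + c j) + c j := by
          rw [add_assoc, h4, add_zero]
      _ = c j := by rw [h1, zero_add]

/-- A functional on the dual space is a relation of the primal vectors. -/
lemma relation_of_functional {A B : Finset V} (hBA : Disjoint B A)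
    {β : V → V →ₗ[ZMod 2] ZMod 2}
    (hA : ∀ a ∈ A, a = ∑ b ∈ B, β b a • b) (g : (A → ZMod 2) →ₗ[ZMod 2] ZMod 2) :
    ∑ j ∈ B ∪ A, g (dv A β j) • j = 0 := by
  classical
  rw [Finset.sum_union hBA]
  have h1 : ∀ b ∈ B, g (dv A β b) = ∑ a : A, β b a * g (Pi.single a 1) := by
    intro b hb
    have h2 : dv A β b = ∑ a : A, β b a • (Pi.single a 1 : A → ZMod 2) := by
      funext a'
      rw [dv_notMem (Finset.disjoint_left.1 hBA hb), Finset.sum_apply, Finset.sum_eq_single a']
      · rw [Pi.smul_apply, Pi.single_eq_same, smul_eq_mul, mul_one]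
      · intro a _ ha
        rw [Pi.smul_apply, Pi.single_eq_of_ne (Ne.symm ha), smul_zero]
      · intro h; exact absurd (Finset.mem_univ _) h
    rw [h2, map_sum]
    refine Finset.sum_congr rfl fun a _ => ?_
    rw [map_smul, smul_eq_mul]
  have h3 : ∑ b ∈ B, g (dv A β b) • b = ∑ a : A, g (Pi.single a 1) • (a : V) := by
    calc ∑ b ∈ B, g (dv A β b) • b
        = ∑ b ∈ B, ∑ a : A, (g (Pi.single a 1) * β b a) • b := by
          refine Finset.sum_congr rfl fun b hb => ?_
          rw [h1 b hb, Finset.sum_smul]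
          refine Finset.sum_congr rfl fun a _ => ?_
          rw [mul_comm]
      _ = ∑ a : A, ∑ b ∈ B, (g (Pi.single a 1) * β b a) • b := Finset.sum_comm
      _ = ∑ a : A, g (Pi.single a 1) • (a : V) := by
          refine Finset.sum_congr rfl fun a _ => ?_
          conv_rhs => rw [hA a a.2]
          rw [Finset.smul_sum]
          refine Finset.sum_congr rfl fun b _ => ?_
          rw [mul_smul]
  have h4 : ∑ a ∈ A, g (dv A β a) • a = ∑ a : A, g (Pi.single a 1) • (a : V) := by
    rw [← Finset.sum_coe_sort A]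
    refine Finset.sum_congr rfl fun a _ => ?_
    rw [dv_mem a.2]
  rw [h3, h4]
  exact ZModModule.add_self _

lemma zmod_cases (c : ZMod 2) : c = 0 ∨ c = 1 := (by decide : ∀ c : ZMod 2, c = 0 ∨ c = 1) c

lemma fin_one_ne {m : ℕ} (hm : 2 ≤ m) (i : Fin (m + 1)) : i + 1 ≠ i := by
  intro h
  have h1 : (1 : Fin (m + 1)) = 0 := by simpa using h
  have h2 := congrArg Fin.val h1
  rw [Fin.val_one', Fin.val_zero, Nat.mod_eq_of_lt (by omega)] at h2
  omega

lemma fin_two_ne {m : ℕ} (hm : 2 ≤ m) (i : Fin (m + 1)) : i + 1 + 1 ≠ i := by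
  intro h
  have h1 : (1 : Fin (m + 1)) + 1 = 0 := by
    rw [add_assoc] at h
    simpa using h
  have h2 := congrArg Fin.val h1
  rw [Fin.val_add, Fin.val_one', Fin.val_zero, Nat.mod_eq_of_lt (by omega : 1 < m + 1),
    Nat.mod_eq_of_lt (by omega)] at h2
  omega

theorem dual_wheel {m : ℕ} (hm : 2 ≤ m) {A B : Finset V} (hBA : Disjoint B A)
    {β : V → V →ₗ[ZMod 2] ZMod 2}
    (hβ : ∀ b ∈ B, ∀ b' ∈ B, β b b' = if b = b' then 1 else 0)
    (hA : ∀ a ∈ A, a = ∑ b ∈ B, β b a • b)
    (h : HasWheel m (dv A β '' ((B ∪ A : Finset V) : Set V))) :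
    HasWheel m ((B ∪ A : Finset V) : Set V) := by
  classical
  obtain ⟨C, z, x, hC, hz, hx, ⟨φ, hφC, hφz⟩, hs⟩ := h
  choose ζ hζI hζ using hz
  choose ξ hξI hξ using hx
  have hφspan : ∀ w ∈ Submodule.span (ZMod 2) C, φ w = 0 := by
    intro w hw
    have : Submodule.span (ZMod 2) C ≤ LinearMap.ker φ := by
      rw [Submodule.span_le]; exact hφC
    exact this hw
  have hφx : ∀ i, φ (x i) = Pi.single i 1 + Pi.single (i + 1) 1 := by
    intro i
    have h1 := hφspan _ (hs i)
    rw [map_add, map_add, hφz, hφz] at h1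
    have h2 : φ (x i) = φ (x i) + Pi.single i 1 + Pi.single (i + 1) 1 +
        (Pi.single i 1 + Pi.single (i + 1) 1) := by
      have h3 := ZModModule.add_self (Pi.single i 1 + Pi.single (i + 1) 1 : Fin (m + 1) → ZMod 2)
      rw [add_assoc (φ (x i)), add_assoc (φ (x i)), h3, add_zero]
    rw [h2, h1, zero_add]
  set θ : Fin (m + 1) ⊕ Fin (m + 1) → V := Sum.elim ζ ξ with hθ
  have hφθ : ∀ s, φ (dv A β (θ s)) ≠ 0 := by
    rintro (i | i) h0
    · simp only [hθ, Sum.elim_inl, hζ, hφz] at h0
      have := congrFun h0 i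
      simp at this
    · simp only [hθ, Sum.elim_inr, hξ, hφx] at h0
      have := congrFun h0 i
      rw [Pi.add_apply, Pi.single_eq_same, Pi.single_eq_of_ne (fin_one_ne hm i).symm] at this
      simp at this
  have hθinj : Function.Injective θ := by
    intro s s' hss
    have h1 : φ (dv A β (θ s)) = φ (dv A β (θ s')) := by rw [hss]
    rcases s with i | i <;> rcases s' with j | j
    · simp only [hθ, Sum.elim_inl, hζ, hφz] at h1
      have := congrFun h1 i
      by_contra hij
      rw [Pi.single_eq_same, Pi.single_eq_of_ne (fun h => hij (by rw [h]))] at this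
      simp at this
    · exfalso
      simp only [hθ, Sum.elim_inl, Sum.elim_inr, hζ, hξ, hφz, hφx] at h1
      have e1 := congrArg (fun f : Fin (m + 1) → ZMod 2 => ∑ t, f t) h1
      simp only [Pi.add_apply, Finset.sum_add_distrib, Finset.sum_pi_single', Finset.mem_univ,
        if_true] at e1
      revert e1; decide
    · exfalso
      simp only [hθ, Sum.elim_inl, Sum.elim_inr, hζ, hξ, hφz, hφx] at h1
      have e1 := congrArg (fun f : Fin (m + 1) → ZMod 2 => ∑ t, f t) h1
      simp only [Pi.add_apply, Finset.sum_add_distrib, Finset.sum_pi_single', Finset.mem_univ,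
        if_true] at e1
      revert e1; decide
    · simp only [hθ, Sum.elim_inr, hξ, hφx] at h1
      by_contra hij
      have hij' : i ≠ j := fun h => hij (by rw [h])
      have e1 := congrFun h1 i
      rw [Pi.add_apply, Pi.add_apply, Pi.single_eq_same, Pi.single_eq_of_ne (fin_one_ne hm i).symm,
        Pi.single_eq_of_ne hij', add_zero, zero_add] at e1
      by_cases hij2 : i = j + 1
      · have e2 := congrFun h1 j
        rw [Pi.add_apply, Pi.add_apply, Pi.single_eq_same, Pi.single_eq_of_ne (fin_one_ne hm j).symm,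
          Pi.single_eq_of_ne hij'.symm, add_zero, zero_add, hij2,
          Pi.single_eq_of_ne (fin_two_ne hm j).symm] at e2
        simp at e2
      · rw [Pi.single_eq_of_ne hij2] at e1
        simp at e1
  have hθI : ∀ s, θ s ∈ B ∪ A := by
    rintro (i | i)
    · exact hζI i
    · exact hξI i
  set K : Finset V := (B ∪ A).filter fun j => dv A β j ∈ C with hK
  have hKC : dv A β '' (K : Set V) = C := by
    ext w
    constructor
    · rintro ⟨j, hj, rfl⟩
      rw [Finset.mem_coe, hK, Finset.mem_filter] at hj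
      exact hj.2
    · intro hw
      obtain ⟨j, hj, rfl⟩ := hC hw
      exact ⟨j, by rw [Finset.mem_coe, hK, Finset.mem_filter]; exact ⟨hj, hw⟩, rfl⟩
  have hθK : ∀ s, θ s ∉ K := fun s hs' => hφθ s (hφC _ (Finset.mem_filter.1 hs').2)
  set L : Set V := {j | j ∈ B ∪ A ∧ j ∉ K ∧ j ∉ Set.range θ} with hL
  -- the functionals
  have hfun : ∀ i : Fin (m + 1), ∃ ψ : V →ₗ[ZMod 2] ZMod 2, (∀ j ∈ L, ψ j = 0) ∧
      ∀ j, ψ (ξ j) = if j = i then 1 else 0 := by
    intro i
    have h1 := hs i
    rw [← hKC, Submodule.mem_span_image_finset_iff_exists_fun] at h1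
    obtain ⟨c₀, hc₀⟩ := h1
    obtain ⟨c, hc⟩ : ∃ c : V → ZMod 2, ∑ j ∈ K, c j • dv A β j = x i + z i + z (i + 1) := by
      refine ⟨fun j => if hj : j ∈ K then c₀ ⟨j, hj⟩ else 0, ?_⟩
      rw [← hc₀, ← Finset.sum_coe_sort K]
      refine Finset.sum_congr rfl fun j _ => ?_
      simp only [j.2, dite_true]
    set c' : V → ZMod 2 := fun j => (if j ∈ K then c j else 0) + (if j = ξ i then 1 else 0) +
      (if j = ζ i then 1 else 0) + (if j = ζ (i + 1) then 1 else 0) with hc'
    have hrel : ∑ j ∈ B ∪ A, c' j • dv A β j = 0 := by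
      simp only [hc', add_smul, Finset.sum_add_distrib]
      have e1 : ∑ j ∈ B ∪ A, (if j ∈ K then c j else 0) • dv A β j =
          ∑ j ∈ K, c j • dv A β j := by
        rw [← Finset.sum_subset (s₁ := K) (s₂ := B ∪ A) (Finset.filter_subset _ _)]
        · refine Finset.sum_congr rfl fun j hj => ?_
          rw [if_pos hj]
        · intro j _ hj
          rw [if_neg hj, zero_smul]
      have e2 : ∀ w ∈ B ∪ A, ∑ j ∈ B ∪ A, (if j = w then (1 : ZMod 2) else 0) • dv A β j =
          dv A β w := by
        intro w hw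
        rw [Finset.sum_eq_single w]
        · rw [if_pos rfl, one_smul]
        · intro j _ hj
          rw [if_neg hj, zero_smul]
        · intro h; exact absurd hw h
      rw [e1, e2 _ (hξI i), e2 _ (hζI i), e2 _ (hζI (i + 1)), hc, hξ, hζ, hζ]
      have e3 := ZModModule.add_self (x i + z i + z (i + 1))
      rw [← e3]
      abel
    obtain ⟨ψ, hψ⟩ := functional_of_relation hBA hβ c' hrel
    refine ⟨ψ, ?_, ?_⟩
    · intro j hj
      have hj1 : j ≠ ξ i := fun h => hj.2.2 ⟨Sum.inr i, h.symm⟩
      have hj2 : ∀ l, j ≠ ζ l := fun l h => hj.2.2 ⟨Sum.inl l, h.symm⟩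
      rw [hψ j hj.1]
      simp only [hc']
      rw [if_neg hj.2.1, if_neg hj1, if_neg (hj2 _), if_neg (hj2 _)]
      simp
    · intro j
      have hj1 : ξ j ∉ K := hθK (Sum.inr j)
      have hj2 : ∀ l, ξ j ≠ ζ l := fun l h => by
        have := hθinj (a₁ := Sum.inr j) (a₂ := Sum.inl l) h
        simp at this
      rw [hψ _ (hξI j)]
      simp only [hc']
      rw [if_neg hj1, if_neg (hj2 _), if_neg (hj2 _)]
      by_cases hji : j = i
      · rw [hji]; simp
      · have hj3 : ξ j ≠ ξ i := fun h => by
          have := hθinj (a₁ := Sum.inr j) (a₂ := Sum.inr i) h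
          exact hji (Sum.inr_injective this)
        rw [if_neg hj3, if_neg hji]
        simp
  choose ψ hψL hψξ using hfun
  refine ⟨L, ξ, fun i => ζ (i + 1), fun j hj => hj.1, hξI, fun i => hζI _,
    ⟨LinearMap.pi ψ, ?_, ?_⟩, ?_⟩
  · intro j hj
    funext i
    rw [LinearMap.pi_apply, hψL i j hj, Pi.zero_apply]
  · intro j
    funext i
    rw [LinearMap.pi_apply, hψξ]
    by_cases hji : j = i
    · rw [hji]; simp
    · rw [if_neg hji, Pi.single_eq_of_ne (Ne.symm hji)]
  · intro i
    set g : (A → ZMod 2) →ₗ[ZMod 2] ZMod 2 := (LinearMap.proj (i + 1)).comp φ with hg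
    have h1 := relation_of_functional hBA hA g
    have hgs : ∀ s, g (dv A β (θ s)) = (Sum.elim (fun l => if l = i + 1 then 1 else 0)
        (fun l => (if l = i + 1 then 1 else 0) + (if l = i then 1 else 0)) s : ZMod 2) := by
      rintro (l | l)
      · simp only [hθ, Sum.elim_inl, hg, LinearMap.comp_apply, LinearMap.proj_apply, hζ, hφz]
        by_cases hl : l = i + 1
        · rw [hl]; simp
        · rw [if_neg hl, Pi.single_eq_of_ne (Ne.symm hl)]
      · simp only [hθ, Sum.elim_inr, hg, LinearMap.comp_apply, LinearMap.proj_apply, hξ, hφx,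
          Pi.add_apply]
        congr 1
        · by_cases hl : l = i + 1
          · rw [hl]; simp
          · rw [if_neg hl, Pi.single_eq_of_ne (Ne.symm hl)]
        · by_cases hl : l = i
          · rw [hl]; simp
          · rw [if_neg hl, Pi.single_eq_of_ne]
            intro h
            exact hl (add_right_cancel h).symm
    have h2 : (Submodule.span (ZMod 2) L).mkQ (∑ j ∈ B ∪ A, g (dv A β j) • j) = 0 := by
      rw [h1, map_zero]
    rw [map_sum] at h2
    have h3 : ∑ j ∈ B ∪ A, (Submodule.span (ZMod 2) L).mkQ (g (dv A β j) • j) =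
        ∑ s, (Submodule.span (ZMod 2) L).mkQ (g (dv A β (θ s)) • θ s) := by
      rw [← Finset.sum_image (s := Finset.univ) (g := θ)
        (f := fun j => (Submodule.span (ZMod 2) L).mkQ (g (dv A β j) • j))
        (fun s _ s' _ h => hθinj h)]
      refine (Finset.sum_subset ?_ ?_).symm
      · intro j hj
        obtain ⟨s, -, rfl⟩ := Finset.mem_image.1 hj
        exact hθI s
      · intro j hj hj'
        by_cases hjK : j ∈ K
        · have : g (dv A β j) = 0 := by
            rw [hg, LinearMap.comp_apply, hφC _ (Finset.mem_filter.1 hjK).2, map_zero]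
          rw [this, zero_smul, map_zero]
        · have hjL : j ∈ L := by
            refine ⟨hj, hjK, ?_⟩
            rintro ⟨s, hs'⟩
            exact hj' (Finset.mem_image.2 ⟨s, Finset.mem_univ _, hs'⟩)
          rw [Submodule.mkQ_apply, Submodule.Quotient.mk_eq_zero]
          exact Submodule.smul_mem _ _ (Submodule.subset_span hjL)
    rw [h3, Fintype.sum_sum_type] at h2
    simp only [hgs, Sum.elim_inl, Sum.elim_inr] at h2
    have h4 : ∑ l, (Submodule.span (ZMod 2) L).mkQ
        ((if l = i + 1 then (1 : ZMod 2) else 0) • θ (Sum.inl l)) =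
        (Submodule.span (ZMod 2) L).mkQ (ζ (i + 1)) := by
      rw [Finset.sum_eq_single (i + 1)]
      · rw [if_pos rfl, one_smul]; rfl
      · intro l _ hl
        rw [if_neg hl, zero_smul, map_zero]
      · intro h; exact absurd (Finset.mem_univ _) h
    have h5 : ∑ l, (Submodule.span (ZMod 2) L).mkQ
        (((if l = i + 1 then (1 : ZMod 2) else 0) + (if l = i then 1 else 0)) • θ (Sum.inr l)) =
        (Submodule.span (ZMod 2) L).mkQ (ξ (i + 1)) + (Submodule.span (ZMod 2) L).mkQ (ξ i) := by
      simp only [add_smul, map_add, Finset.sum_add_distrib]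
      congr 1
      · rw [Finset.sum_eq_single (i + 1)]
        · rw [if_pos rfl, one_smul]; rfl
        · intro l _ hl
          rw [if_neg hl, zero_smul, map_zero]
        · intro h; exact absurd (Finset.mem_univ _) h
      · rw [Finset.sum_eq_single i]
        · rw [if_pos rfl, one_smul]; rfl
        · intro l _ hl
          rw [if_neg hl, zero_smul, map_zero]
        · intro h; exact absurd (Finset.mem_univ _) h
    rw [h4, h5] at h2
    rw [← Submodule.Quotient.mk_eq_zero, ← Submodule.mkQ_apply, map_add, map_add]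
    rw [← h2]
    abel

end

end Pool.Agent.Lib.P68998d
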