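import Mathlib

/-!
Greedy extension of functionals, and the numerical inequality.
-/

namespace Pool.Agent.Lib.P68998d

open Finset

/-- Induction on `X` (strong, on the cardinality): take `f` for `Y = X`, `X' = {x : f x = 0}` has functionals `Φ'`;
for `ε : Fin k → ZMod 2` outside the fewer than `2 ^ k` values `(Φ' · x)`, `f x = 1`, put `Φ j = Φ' j + ε j • f`. -/
theorem greedy {V : Type*} [AddCommGroup V] [Module (ZMod 2) V] [DecidableEq V] (k : ℕ)
    (X : Finset V)
    (h : ∀ Y ⊆ X, Y.Nonempty → ∃ f : V →ₗ[ZMod 2] ZMod 2,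
      (Y.filter fun x => f x = 1).Nonempty ∧ (Y.filter fun x => f x = 1).card < 2 ^ k) :
    ∃ Φ : Fin k → Module.Dual (ZMod 2) V, ∀ x ∈ X, ∃ j, Φ j x ≠ 0 := by
  induction X using Finset.strongInduction with
  | H X ih =>
    rcases X.eq_empty_or_nonempty with rfl | hX
    · exact ⟨fun _ => 0, fun x hx => absurd hx (Finset.notMem_empty x)⟩
    obtain ⟨f, hf1, hf2⟩ := h X (Finset.Subset.refl X) hX
    have hsub : X.filter (fun x => f x = 0) ⊂ X := by
      rw [Finset.filter_ssubset]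
      obtain ⟨x, hx⟩ := hf1
      rw [Finset.mem_filter] at hx
      refine ⟨x, hx.1, ?_⟩
      rw [hx.2]
      exact one_ne_zero
    obtain ⟨Φ', hΦ'⟩ := ih _ hsub fun Y hY hYn => h Y (hY.trans (Finset.filter_subset _ _)) hYn
    have hcard : ((X.filter fun x => f x = 1).image fun x => fun j => Φ' j x).card <
        (Finset.univ : Finset (Fin k → ZMod 2)).card := by
      refine lt_of_le_of_lt Finset.card_image_le (lt_of_lt_of_eq hf2 ?_)
      rw [Finset.card_univ, Fintype.card_fun, ZMod.card, Fintype.card_fin]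
    obtain ⟨ε, -, hε⟩ := Finset.exists_mem_notMem_of_card_lt_card hcard
    refine ⟨fun j => Φ' j + ε j • f, fun x hx => ?_⟩
    have hval : f x = 0 ∨ f x = 1 := by
      have : ∀ y : ZMod 2, y = 0 ∨ y = 1 := by decide
      exact this (f x)
    rcases hval with h0 | h1
    · obtain ⟨j, hj⟩ := hΦ' x (Finset.mem_filter.2 ⟨hx, h0⟩)
      refine ⟨j, ?_⟩
      rw [LinearMap.add_apply, LinearMap.smul_apply, h0, smul_zero, add_zero]
      exact hj
    · by_contra hcon
      push Not at hcon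
      refine hε (Finset.mem_image.2 ⟨x, Finset.mem_filter.2 ⟨hx, h1⟩, funext fun j => ?_⟩)
      have h2 := hcon j
      rw [LinearMap.add_apply, LinearMap.smul_apply, h1, smul_eq_mul, mul_one] at h2
      have h3 : ∀ y z : ZMod 2, y + z = 0 → y = z := by decide
      exact h3 _ _ h2

theorem central_sq (m : ℕ) : (3 * m + 1) * Nat.centralBinom m ^ 2 ≤ 16 ^ m := by
  induction m with
  | zero => simp
  | succ n ih =>
    have h := Nat.succ_mul_centralBinom_succ n
    have h1 : (n + 1) ^ 2 * ((3 * (n + 1) + 1) * Nat.centralBinom (n + 1) ^ 2) ≤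
        (n + 1) ^ 2 * 16 ^ (n + 1) := by
      calc (n + 1) ^ 2 * ((3 * (n + 1) + 1) * Nat.centralBinom (n + 1) ^ 2)
          = (3 * (n + 1) + 1) * ((n + 1) * Nat.centralBinom (n + 1)) ^ 2 := by ring
        _ = (3 * (n + 1) + 1) * (2 * (2 * n + 1) * Nat.centralBinom n) ^ 2 := by rw [h]
        _ = (4 * (2 * n + 1) ^ 2 * (3 * n + 4)) * Nat.centralBinom n ^ 2 := by ring
        _ ≤ (16 * (n + 1) ^ 2 * (3 * n + 1)) * Nat.centralBinom n ^ 2 := by
            refine Nat.mul_le_mul_right _ ?_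
            nlinarith
        _ = 16 * (n + 1) ^ 2 * ((3 * n + 1) * Nat.centralBinom n ^ 2) := by ring
        _ ≤ 16 * (n + 1) ^ 2 * 16 ^ n := Nat.mul_le_mul_left _ ih
        _ = (n + 1) ^ 2 * 16 ^ (n + 1) := by ring
    exact Nat.le_of_mul_le_mul_left h1 (by positivity)

/-- `m = a + 1`: `2 * choose (2a+1) a = centralBinom m`, `(3m+1) * centralBinom m ^ 2 ≤ 16 ^ m` by induction
(`Nat.succ_mul_centralBinom_succ`), so `8 t^2 m = 2 m centralBinom^2`, `3 * (8 t^2 m) ≤ 2 * 16 ^ m`. -/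
theorem numeric (a : ℕ) (ha : 1 ≤ a) :
    8 * ((2 * a + 1).choose a) ^ 2 * (a + 1) + 2 < 2 ^ (4 * (a + 1)) := by
  have h1 : Nat.centralBinom (a + 1) = 2 * (2 * a + 1).choose a := by
    rw [Nat.centralBinom_eq_two_mul_choose, show 2 * (a + 1) = (2 * a + 1) + 1 by ring,
      Nat.choose_succ_succ, Nat.succ_eq_add_one, Nat.choose_symm_half]
    ring
  have h2 := central_sq (a + 1)
  rw [h1] at h2
  have h3 : 2 ^ (4 * (a + 1)) = 16 ^ (a + 1) := by
    rw [pow_mul]
    norm_num
  rw [h3]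
  refine lt_of_lt_of_le ?_ h2
  have h4 : 1 ≤ (2 * a + 1).choose a := Nat.choose_pos (by omega)
  have h5 : 1 ≤ ((2 * a + 1).choose a) ^ 2 := Nat.one_le_pow _ _ h4
  nlinarith

end Pool.Agent.Lib.P68998d
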