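import Pool.Agent.Lib.P68998d.Unit

/-!
Haussler's packing lemma, in the form needed here. The sets `T i` (`i` in `B`) in the ground set `N`
differ pairwise in at least `δ` elements, have at most `t * A.card + 1` traces on every `A`, and
shatter only sets with at most `d` elements.

Proof. For `A` in `N` and `U` in `A` put `w_A(U) = #{i in B : T i inter A = U}` and
`W(A) = sum_{a in A} sum_{U in powerset (A.erase a)} min (w_A(U)) (w_A(insert a U))`. `weighted_le`: `W(A) <= d * B.card`.

`class_bound`: for `A'` of cardinality `σ`,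
`δ * (B.card - (t σ + 1)) <= 2 * sum_{a in N \ A'} sum_{U in powerset A'} min (w_{insert a A'}(U)) (w_{insert a A'}(insert a U))`.
Here `w_{insert a A'}(U) = #{i : T i inter A' = U, a not in T i} = b_2`, `w_{insert a A'}(insert a U) = #{i : T i inter A' = U, a in T i} = b_1`,
`b_1 + b_2 = b = w_{A'}(U)`; if `b > 0` then `b * sum_a min >= sum_a b_1 b_2` (as `b * min(b_1,b_2) >= b_1 b_2`), and
`2 sum_a b_1 b_2 = sum over ordered pairs i <> j of the class of (symmDiff (T i) (T j)).card >= b (b-1) δ`
(members of a class agree on `A'`, so their symmetric difference lies in `N \ A'`). Hence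
`2 sum_a min >= (b-1) δ`; sum over the `U` with `b > 0`, which are the members of
`B.image fun i => T i inter A'` (at most `t σ + 1`).

Double counting: the pairs `(A', a)`, `A'` in `powersetCard σ N`, `a` in `N \ A'`, correspond to the pairs `(A, a)`, `A` in
`powersetCard (σ+1) N`, `a` in `A` (`A = insert a A'`, `A' = A.erase a`). So
`choose N.card σ * δ * (B.card - (tσ+1)) <= 2 * choose N.card (σ+1) * d * B.card`; multiply by `σ+1`, use
`choose N.card (σ+1) * (σ+1) = choose N.card σ * (N.card - σ)` (`Nat.choose_succ_right_eq`) and cancel `choose N.card σ > 0`.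
-/

namespace Pool.Agent.Lib.P68998d

open Finset

theorem mul_le_add_mul_min (p q : ℕ) : p * q ≤ (p + q) * min q p := by
  rcases le_total p q with h | h
  · rw [min_eq_right h]
    nlinarith
  · rw [min_eq_left h]
    nlinarith

/-- ordered pairs of a class separated by `a` -/
theorem pair_count {γ ι : Type*} [DecidableEq γ] (C : Finset ι) (T : ι → Finset γ) (a : γ) :
    ∑ i ∈ C, ∑ j ∈ C, (if a ∈ symmDiff (T i) (T j) then 1 else 0) =
      2 * ((C.filter fun i => a ∈ T i).card * (C.filter fun i => a ∉ T i).card) := by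
  have h1 : ∀ i ∈ C, ∑ j ∈ C, (if a ∈ symmDiff (T i) (T j) then 1 else 0) =
      if a ∈ T i then (C.filter fun i => a ∉ T i).card else (C.filter fun i => a ∈ T i).card := by
    intro i _
    by_cases h : a ∈ T i
    · rw [if_pos h, Finset.card_filter]
      refine Finset.sum_congr rfl fun j _ => ?_
      simp [Finset.mem_symmDiff, h]
    · rw [if_neg h, Finset.card_filter]
      refine Finset.sum_congr rfl fun j _ => ?_
      simp [Finset.mem_symmDiff, h]
  rw [Finset.sum_congr rfl h1, Finset.sum_ite]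
  simp only [Finset.sum_const, smul_eq_mul]
  ring

/-- the bound for one class -/
theorem class_ineq {γ ι : Type*} [DecidableEq γ] [DecidableEq ι] (C : Finset ι)
    (T : ι → Finset γ) (M : Finset γ) (δ : ℕ)
    (hsep : ∀ i ∈ C, ∀ j ∈ C, i ≠ j → δ ≤ (M.filter fun a => a ∈ symmDiff (T i) (T j)).card) :
    δ * C.card ≤ 2 * (∑ a ∈ M, min (C.filter fun i => a ∉ T i).card
      (C.filter fun i => a ∈ T i).card) + δ := by
  rcases Nat.eq_zero_or_pos C.card with h0 | hpos
  · rw [h0]
    simp
  have h1 : C.card * ((C.card - 1) * δ) ≤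
      ∑ i ∈ C, ∑ j ∈ C, (M.filter fun a => a ∈ symmDiff (T i) (T j)).card := by
    have : ∀ i ∈ C, (C.card - 1) * δ ≤
        ∑ j ∈ C, (M.filter fun a => a ∈ symmDiff (T i) (T j)).card := by
      intro i hi
      calc (C.card - 1) * δ = ∑ j ∈ C.erase i, δ := by
            rw [Finset.sum_const, Finset.card_erase_of_mem hi, smul_eq_mul]
        _ ≤ ∑ j ∈ C.erase i, (M.filter fun a => a ∈ symmDiff (T i) (T j)).card :=
            Finset.sum_le_sum fun j hj =>
              hsep i hi j (Finset.mem_of_mem_erase hj) (Finset.ne_of_mem_erase hj).symm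
        _ ≤ ∑ j ∈ C, (M.filter fun a => a ∈ symmDiff (T i) (T j)).card :=
            Finset.sum_le_sum_of_subset (Finset.erase_subset _ _)
    calc C.card * ((C.card - 1) * δ) = ∑ i ∈ C, (C.card - 1) * δ := by
          rw [Finset.sum_const, smul_eq_mul]
      _ ≤ _ := Finset.sum_le_sum this
  have h2 : ∑ i ∈ C, ∑ j ∈ C, (M.filter fun a => a ∈ symmDiff (T i) (T j)).card =
      ∑ a ∈ M, 2 * ((C.filter fun i => a ∈ T i).card * (C.filter fun i => a ∉ T i).card) := by
    simp only [Finset.card_filter]
    have : ∀ i ∈ C, ∑ j ∈ C, ∑ a ∈ M, (if a ∈ symmDiff (T i) (T j) then 1 else 0) =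
        ∑ a ∈ M, ∑ j ∈ C, (if a ∈ symmDiff (T i) (T j) then 1 else 0) :=
      fun i _ => Finset.sum_comm
    rw [Finset.sum_congr rfl this, Finset.sum_comm]
    refine Finset.sum_congr rfl fun a _ => ?_
    rw [pair_count, Finset.card_filter, Finset.card_filter]
  have h3 : ∑ a ∈ M, 2 * ((C.filter fun i => a ∈ T i).card * (C.filter fun i => a ∉ T i).card) ≤
      C.card * (2 * ∑ a ∈ M, min (C.filter fun i => a ∉ T i).card
        (C.filter fun i => a ∈ T i).card) := by
    rw [Finset.mul_sum, Finset.mul_sum]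
    refine Finset.sum_le_sum fun a _ => ?_
    have h4 := mul_le_add_mul_min (C.filter fun i => a ∈ T i).card (C.filter fun i => a ∉ T i).card
    have h5 : (C.filter fun i => a ∈ T i).card + (C.filter fun i => a ∉ T i).card = C.card :=
      Finset.card_filter_add_card_filter_not _
    rw [h5] at h4
    calc 2 * ((C.filter fun i => a ∈ T i).card * (C.filter fun i => a ∉ T i).card)
        ≤ 2 * (C.card * min (C.filter fun i => a ∉ T i).card
          (C.filter fun i => a ∈ T i).card) := Nat.mul_le_mul_left _ h4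
      _ = _ := by ring
  have h6 : (C.card - 1) * δ ≤ 2 * ∑ a ∈ M, min (C.filter fun i => a ∉ T i).card
        (C.filter fun i => a ∈ T i).card :=
    Nat.le_of_mul_le_mul_left ((h1.trans h2.le).trans h3) hpos
  have h7 : δ * C.card = (C.card - 1) * δ + δ := by
    obtain ⟨k, hk⟩ := Nat.exists_eq_add_of_lt hpos
    rw [hk]
    simp
    ring
  omega

theorem class_bound {γ ι : Type*} [DecidableEq γ] [DecidableEq ι] (B : Finset ι) (N : Finset γ)
    (T : ι → Finset γ) (δ t : ℕ) (hT : ∀ i ∈ B, T i ⊆ N)
    (hsep : ∀ i ∈ B, ∀ j ∈ B, i ≠ j → δ ≤ (symmDiff (T i) (T j)).card)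
    (A' : Finset γ) (_hA : A' ⊆ N)
    (hgrow : (B.image fun i => T i ∩ A').card ≤ t * A'.card + 1) :
    δ * B.card ≤ 2 * (∑ a ∈ N \ A', ∑ U ∈ A'.powerset,
      min (B.filter fun i => T i ∩ insert a A' = U).card
        (B.filter fun i => T i ∩ insert a A' = insert a U).card) + δ * (t * A'.card + 1) := by
  classical
  -- one class
  have hcls : ∀ U ∈ B.image (fun i => T i ∩ A'),
      δ * (B.filter fun i => T i ∩ A' = U).card ≤
        2 * (∑ a ∈ N \ A', min (B.filter fun i => T i ∩ insert a A' = U).card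
          (B.filter fun i => T i ∩ insert a A' = insert a U).card) + δ := by
    intro U hU
    obtain ⟨i0, hi0, hU0⟩ := Finset.mem_image.1 hU
    have hUA : U ⊆ A' := hU0 ▸ Finset.inter_subset_right
    have h1 := class_ineq (B.filter fun i => T i ∩ A' = U) T (N \ A') δ (by
      intro i hi j hj hij
      obtain ⟨hiB, hiU⟩ := Finset.mem_filter.1 hi
      obtain ⟨hjB, hjU⟩ := Finset.mem_filter.1 hj
      refine (hsep i hiB j hjB hij).trans (Finset.card_le_card ?_)
      intro a ha
      rw [Finset.mem_filter, Finset.mem_sdiff]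
      have haN : a ∈ N := by
        rcases Finset.mem_symmDiff.1 ha with ⟨h, _⟩ | ⟨h, _⟩
        · exact hT i hiB h
        · exact hT j hjB h
      refine ⟨⟨haN, fun haA => ?_⟩, ha⟩
      have hiff : a ∈ T i ↔ a ∈ T j := by
        have e1 : a ∈ T i ↔ a ∈ U := by
          rw [← hiU, Finset.mem_inter]
          exact ⟨fun h => ⟨h, haA⟩, fun h => h.1⟩
        have e2 : a ∈ T j ↔ a ∈ U := by
          rw [← hjU, Finset.mem_inter]
          exact ⟨fun h => ⟨h, haA⟩, fun h => h.1⟩
        exact e1.trans e2.symm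
      rcases Finset.mem_symmDiff.1 ha with ⟨h, h'⟩ | ⟨h, h'⟩
      · exact h' (hiff.1 h)
      · exact h' (hiff.2 h))
    refine h1.trans (Nat.add_le_add_right (Nat.mul_le_mul_left _ (le_of_eq ?_)) _)
    refine Finset.sum_congr rfl fun a ha => ?_
    have haA : a ∉ A' := (Finset.mem_sdiff.1 ha).2
    have haU : a ∉ U := fun h => haA (hUA h)
    have e1 : (B.filter fun i => T i ∩ A' = U).filter (fun i => a ∉ T i) =
        B.filter fun i => T i ∩ insert a A' = U := by
      ext i
      simp only [Finset.mem_filter]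
      constructor
      · rintro ⟨⟨h1, h2⟩, h3⟩
        exact ⟨h1, by rw [Finset.inter_insert_of_notMem h3, h2]⟩
      · rintro ⟨h1, h2⟩
        have h3 : a ∉ T i := by
          intro h
          apply haU
          rw [← h2]
          exact Finset.mem_inter.2 ⟨h, Finset.mem_insert_self _ _⟩
        refine ⟨⟨h1, ?_⟩, h3⟩
        rwa [Finset.inter_insert_of_notMem h3] at h2
    have e2 : (B.filter fun i => T i ∩ A' = U).filter (fun i => a ∈ T i) =
        B.filter fun i => T i ∩ insert a A' = insert a U := by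
      ext i
      simp only [Finset.mem_filter]
      constructor
      · rintro ⟨⟨h1, h2⟩, h3⟩
        exact ⟨h1, by rw [Finset.inter_insert_of_mem h3, h2]⟩
      · rintro ⟨h1, h2⟩
        have h3 : a ∈ T i := by
          have : a ∈ T i ∩ insert a A' := by
            rw [h2]
            exact Finset.mem_insert_self _ _
          exact (Finset.mem_inter.1 this).1
        refine ⟨⟨h1, ?_⟩, h3⟩
        rw [Finset.inter_insert_of_mem h3] at h2
        have h4 : a ∉ T i ∩ A' := fun h => haA (Finset.mem_inter.1 h).2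
        have := congrArg (fun s => Finset.erase s a) h2
        simpa [Finset.erase_insert h4, Finset.erase_insert haU] using this
    rw [e1, e2]
  have hsum : B.card = ∑ U ∈ B.image (fun i => T i ∩ A'),
      (B.filter fun i => T i ∩ A' = U).card :=
    Finset.card_eq_sum_card_image _ _
  have hsub : B.image (fun i => T i ∩ A') ⊆ A'.powerset := by
    intro U hU
    obtain ⟨i, _, rfl⟩ := Finset.mem_image.1 hU
    exact Finset.mem_powerset.2 Finset.inter_subset_right
  calc δ * B.card = ∑ U ∈ B.image (fun i => T i ∩ A'),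
        δ * (B.filter fun i => T i ∩ A' = U).card := by
        conv_lhs => rw [hsum]
        rw [Finset.mul_sum]
    _ ≤ ∑ U ∈ B.image (fun i => T i ∩ A'),
        (2 * (∑ a ∈ N \ A', min (B.filter fun i => T i ∩ insert a A' = U).card
          (B.filter fun i => T i ∩ insert a A' = insert a U).card) + δ) :=
        Finset.sum_le_sum hcls
    _ = 2 * (∑ U ∈ B.image (fun i => T i ∩ A'), ∑ a ∈ N \ A',
          min (B.filter fun i => T i ∩ insert a A' = U).card
          (B.filter fun i => T i ∩ insert a A' = insert a U).card) +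
          δ * (B.image (fun i => T i ∩ A')).card := by
        rw [Finset.sum_add_distrib, ← Finset.mul_sum, Finset.sum_const, smul_eq_mul, mul_comm δ]
    _ ≤ 2 * (∑ U ∈ A'.powerset, ∑ a ∈ N \ A',
          min (B.filter fun i => T i ∩ insert a A' = U).card
          (B.filter fun i => T i ∩ insert a A' = insert a U).card) +
          δ * (t * A'.card + 1) :=
        Nat.add_le_add (Nat.mul_le_mul_left _ (Finset.sum_le_sum_of_subset hsub))
          (Nat.mul_le_mul_left _ hgrow)
    _ = _ := by rw [Finset.sum_comm]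

/-- the pairs `(A', a)` and `(A, a)` -/
theorem double_count {γ : Type*} [DecidableEq γ] (N : Finset γ) (σ : ℕ)
    (F : Finset γ → γ → ℕ) :
    ∑ A' ∈ N.powersetCard σ, ∑ a ∈ N \ A', F A' a =
      ∑ A ∈ N.powersetCard (σ + 1), ∑ a ∈ A, F (A.erase a) a := by
  rw [Finset.sum_sigma', Finset.sum_sigma']
  refine Finset.sum_nbij' (fun x => ⟨insert x.2 x.1, x.2⟩) (fun x => ⟨x.1.erase x.2, x.2⟩)
    ?_ ?_ ?_ ?_ ?_
  · rintro ⟨A', a⟩ h
    simp only [Finset.mem_sigma, Finset.mem_powersetCard, Finset.mem_sdiff] at h ⊢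
    obtain ⟨⟨h1, h2⟩, h3, h4⟩ := h
    exact ⟨⟨Finset.insert_subset h3 h1, by rw [Finset.card_insert_of_notMem h4, h2]⟩,
      Finset.mem_insert_self _ _⟩
  · rintro ⟨A, a⟩ h
    simp only [Finset.mem_sigma, Finset.mem_powersetCard, Finset.mem_sdiff] at h ⊢
    obtain ⟨⟨h1, h2⟩, h3⟩ := h
    refine ⟨⟨(Finset.erase_subset _ _).trans h1, ?_⟩, h1 h3, Finset.notMem_erase _ _⟩
    rw [Finset.card_erase_of_mem h3, h2]
    rfl
  · rintro ⟨A', a⟩ h
    simp only [Finset.mem_sigma, Finset.mem_powersetCard, Finset.mem_sdiff] at h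
    simp only [Finset.erase_insert h.2.2]
  · rintro ⟨A, a⟩ h
    simp only [Finset.mem_sigma, Finset.mem_powersetCard] at h
    simp only [Finset.insert_erase h.2]
  · rintro ⟨A', a⟩ h
    simp only [Finset.mem_sigma, Finset.mem_powersetCard, Finset.mem_sdiff] at h
    simp only [Finset.erase_insert h.2.2]

theorem packing {γ ι : Type*} [DecidableEq γ] [DecidableEq ι] (B : Finset ι) (N : Finset γ)
    (T : ι → Finset γ) (δ t d σ : ℕ) (hT : ∀ i ∈ B, T i ⊆ N)
    (hsep : ∀ i ∈ B, ∀ j ∈ B, i ≠ j → δ ≤ (symmDiff (T i) (T j)).card)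
    (hgrow : ∀ A ⊆ N, (B.image fun i => T i ∩ A).card ≤ t * A.card + 1)
    (hd : ∀ S ⊆ N, (∀ U ⊆ S, ∃ i ∈ B, T i ∩ S = U) → S.card ≤ d)
    (hσ : σ ≤ N.card) :
    (σ + 1) * δ * (B.card - (t * σ + 1)) ≤ 2 * (N.card - σ) * d * B.card := by
  have h1 : ∀ A' ∈ N.powersetCard σ, δ * B.card ≤ 2 * (∑ a ∈ N \ A', ∑ U ∈ A'.powerset,
      min (B.filter fun i => T i ∩ insert a A' = U).card
        (B.filter fun i => T i ∩ insert a A' = insert a U).card) + δ * (t * σ + 1) := by
    intro A' hA'
    obtain ⟨hA1, hA2⟩ := Finset.mem_powersetCard.1 hA'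
    have := class_bound B N T δ t hT hsep A' hA1 (hgrow A' hA1)
    rwa [hA2] at this
  have h2 : N.card.choose σ * (δ * B.card) ≤
      2 * (∑ A' ∈ N.powersetCard σ, ∑ a ∈ N \ A', ∑ U ∈ A'.powerset,
      min (B.filter fun i => T i ∩ insert a A' = U).card
        (B.filter fun i => T i ∩ insert a A' = insert a U).card) +
        N.card.choose σ * (δ * (t * σ + 1)) := by
    have := Finset.sum_le_sum h1
    rw [Finset.sum_const, Finset.card_powersetCard, smul_eq_mul, Finset.sum_add_distrib,
      ← Finset.mul_sum, Finset.sum_const, Finset.card_powersetCard, smul_eq_mul] at this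
    exact this
  rw [double_count N σ (fun A' a => ∑ U ∈ A'.powerset,
      min (B.filter fun i => T i ∩ insert a A' = U).card
        (B.filter fun i => T i ∩ insert a A' = insert a U).card)] at h2
  have h3 : ∑ A ∈ N.powersetCard (σ + 1), ∑ a ∈ A, ∑ U ∈ (A.erase a).powerset,
      min (B.filter fun i => T i ∩ insert a (A.erase a) = U).card
        (B.filter fun i => T i ∩ insert a (A.erase a) = insert a U).card ≤
      N.card.choose (σ + 1) * (d * B.card) := by
    rw [← Finset.card_powersetCard, ← smul_eq_mul, ← Finset.sum_const]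
    refine Finset.sum_le_sum fun A hA => ?_
    obtain ⟨hA1, _⟩ := Finset.mem_powersetCard.1 hA
    refine le_trans (le_of_eq ?_) (weighted_le B T A d fun S hS => hd S (hS.trans hA1))
    refine Finset.sum_congr rfl fun a ha => ?_
    rw [Finset.insert_erase ha]
  have h4 : N.card.choose (σ + 1) * (σ + 1) = N.card.choose σ * (N.card - σ) :=
    Nat.choose_succ_right_eq _ _
  have hpos : 0 < N.card.choose σ := Nat.choose_pos hσ
  have h5 : N.card.choose σ * ((σ + 1) * δ * B.card) ≤
      N.card.choose σ * (2 * (N.card - σ) * d * B.card + (σ + 1) * δ * (t * σ + 1)) := by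
    have h6 := (h2.trans (Nat.add_le_add_right (Nat.mul_le_mul_left 2 h3) _))
    have h7 := Nat.mul_le_mul_left (σ + 1) h6
    calc N.card.choose σ * ((σ + 1) * δ * B.card)
        = (σ + 1) * (N.card.choose σ * (δ * B.card)) := by ring
      _ ≤ _ := h7
      _ = 2 * (N.card.choose (σ + 1) * (σ + 1)) * d * B.card +
          N.card.choose σ * ((σ + 1) * δ * (t * σ + 1)) := by ring
      _ = _ := by rw [h4]; ring
  have h8 := Nat.le_of_mul_le_mul_left h5 hpos
  rw [Nat.mul_sub]
  omega

end Pool.Agent.Lib.P68998d
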