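import Pool.Agent.Lib.P68998d.Dual
import Pool.Agent.Lib.P68998d.Pack

/-!
A binary configuration without a wheel minor has a small cocycle.
-/

namespace Pool.Agent.Lib.P68998d

open Finset Pool.Agent.Lib.P68998c

section

variable {n : ℕ}

lemma exists_basis_data (X : Finset (Fin n → ZMod 2)) :
    ∃ (B : Finset (Fin n → ZMod 2))
      (β : (Fin n → ZMod 2) → (Fin n → ZMod 2) →ₗ[ZMod 2] ZMod 2),
      B ⊆ X ∧ B.card = Module.finrank (ZMod 2)
        (Submodule.span (ZMod 2) (X : Set (Fin n → ZMod 2))) ∧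
      (∀ b ∈ B, ∀ b' ∈ B, β b b' = if b = b' then 1 else 0) ∧
      ∀ x ∈ X, x = ∑ b ∈ B, β b x • b := by
  classical
  obtain ⟨b, hbX, hspan, hli⟩ := exists_linearIndependent (ZMod 2) (X : Set (Fin n → ZMod 2))
  have hfin : b.Finite := X.finite_toSet.subset hbX
  set B : Finset (Fin n → ZMod 2) := hfin.toFinset with hB
  have hBb : ∀ x, x ∈ B ↔ x ∈ b := fun x => by rw [hB, Set.Finite.mem_toFinset]
  have hBc : (B : Set (Fin n → ZMod 2)) = b := by rw [hB, Set.Finite.coe_toFinset]
  have hli' : LinearIndependent (ZMod 2) (fun x : B => (x : Fin n → ZMod 2)) := by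
    have : LinearIndepOn (ZMod 2) id (B : Set (Fin n → ZMod 2)) := by
      rw [hBc]; exact hli
    exact this
  have hex : ∀ c : Fin n → ZMod 2, ∃ ψ : (Fin n → ZMod 2) →ₗ[ZMod 2] ZMod 2,
      ∀ b' ∈ B, ψ b' = if c = b' then 1 else 0 := by
    intro c
    obtain ⟨ψ, hψ⟩ := LinearMap.exists_extend
      ((Module.Basis.span hli').constr (ZMod 2) (fun x : B => if c = (x : Fin n → ZMod 2) then
        (1 : ZMod 2) else 0))
    refine ⟨ψ, fun b' hb' => ?_⟩
    have h1 := congrArg (fun f => f ((Module.Basis.span hli') ⟨b', hb'⟩)) hψ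
    simp only [LinearMap.comp_apply, Submodule.subtype_apply, Module.Basis.constr_basis] at h1
    rw [Module.Basis.span_apply] at h1
    exact h1
  choose β hβ using hex
  have hBX : B ⊆ X := by
    intro x hx
    exact Finset.mem_coe.1 (hbX ((hBb x).1 hx))
  refine ⟨B, β, hBX, ?_, fun c _ b' hb' => hβ c b' hb', ?_⟩
  · rw [← hspan, ← hBc]
    have h4 := finrank_span_eq_card (R := ZMod 2) hli'
    have h5 : Set.range (fun x : B => (x : Fin n → ZMod 2)) = (B : Set (Fin n → ZMod 2)) := by
      ext w; simp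
    rw [h5] at h4
    rw [h4, Fintype.card_coe]
  · intro x hx
    have h1 : x ∈ Submodule.span (ZMod 2) (B : Set (Fin n → ZMod 2)) := by
      rw [hBc, hspan]
      exact Submodule.subset_span hx
    rw [Submodule.mem_span_finset] at h1
    obtain ⟨c, -, hc⟩ := h1
    conv_lhs => rw [← hc]
    refine Finset.sum_congr rfl fun b' hb' => ?_
    congr 1
    rw [← hc, map_sum, Finset.sum_eq_single b']
    · rw [map_smul, hβ b' b' hb', if_pos rfl, smul_eq_mul, mul_one]
    · intro b'' hb'' hne
      rw [map_smul, hβ b' b'' hb'', if_neg (Ne.symm hne), smul_zero]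
    · intro h; exact absurd hb' h

lemma growth {a : ℕ} (ha : 1 ≤ a) {X A B : Finset (Fin n → ZMod 2)}
    (hW : ¬ HasWheel (a + 1) (X : Set (Fin n → ZMod 2))) (hAX : A ⊆ X) (hBX : B ⊆ X)
    (hBA : Disjoint B A) {β : (Fin n → ZMod 2) → (Fin n → ZMod 2) →ₗ[ZMod 2] ZMod 2}
    (hβ : ∀ b ∈ B, ∀ b' ∈ B, β b b' = if b = b' then 1 else 0)
    (hA : ∀ x ∈ A, x = ∑ b ∈ B, β b x • b) :
    (B.image (dv A β)).card ≤ (2 * a + 1).choose a * A.card + 1 := by
  classical
  set E' : Finset (A → ZMod 2) := ((B ∪ A).image (dv A β)).erase 0 with hE'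
  have hnoW : ¬ HasWheel (a + 1) (E' : Set (A → ZMod 2)) := by
    intro h
    have h1 : HasWheel (a + 1) (dv A β '' ((B ∪ A : Finset (Fin n → ZMod 2)) :
        Set (Fin n → ZMod 2))) := by
      refine h.mono ?_
      rw [← Finset.coe_image]
      exact Finset.coe_subset.2 (Finset.erase_subset _ _)
    exact hW ((dual_wheel (by omega) hBA hβ hA h1).mono
      (Finset.coe_subset.2 (Finset.union_subset hBX hAX)))
  have h1 := density a A.card (A → ZMod 2) E' (Finset.notMem_erase _ _) hnoW (by
    refine (Submodule.finrank_le _).trans ?_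
    rw [Module.finrank_fintype_fun_eq_card, Fintype.card_coe])
  have h2 : B.image (dv A β) ⊆ insert 0 E' := by
    intro u hu
    rw [Finset.mem_insert, hE', Finset.mem_erase]
    by_cases h0 : u = 0
    · exact Or.inl h0
    · exact Or.inr ⟨h0, Finset.image_subset_image Finset.subset_union_left hu⟩
  have h3 := Finset.card_le_card h2
  have h4 := Finset.card_insert_le (0 : A → ZMod 2) E'
  omega

lemma traces {a : ℕ} (ha : 1 ≤ a) {X A B N : Finset (Fin n → ZMod 2)}
    (hW : ¬ HasWheel (a + 1) (X : Set (Fin n → ZMod 2))) (hNX : N ⊆ X) (hBX : B ⊆ X)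
    (hBN : Disjoint B N) (hAN : A ⊆ N)
    {β : (Fin n → ZMod 2) → (Fin n → ZMod 2) →ₗ[ZMod 2] ZMod 2}
    (hβ : ∀ b ∈ B, ∀ b' ∈ B, β b b' = if b = b' then 1 else 0)
    (hX : ∀ x ∈ X, x = ∑ b ∈ B, β b x • b) :
    (B.image fun b => (N.filter fun x => β b x = 1) ∩ A).card ≤
      (2 * a + 1).choose a * A.card + 1 := by
  classical
  have hBA : Disjoint B A := hBN.mono_right hAN
  refine le_trans ?_ (growth ha hW (hAN.trans hNX) hBX hBA hβ
    (fun x hx => hX x (hNX (hAN hx))))
  have h1 : (B.image fun b => (N.filter fun x => β b x = 1) ∩ A) =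
      (B.image (dv A β)).image fun u => A.filter fun x => ∃ h : x ∈ A, u ⟨x, h⟩ = 1 := by
    rw [Finset.image_image]
    refine Finset.image_congr ?_
    intro b hb
    ext x
    simp only [Finset.mem_inter, Finset.mem_filter, Function.comp_apply]
    constructor
    · intro h
      have h2 := h.1.2
      have h3 := h.2
      exact ⟨h3, h3, by rw [dv_notMem (Finset.disjoint_left.1 hBA hb)]; exact h2⟩
    · intro h
      obtain ⟨h3, h4, h2⟩ := h
      rw [dv_notMem (Finset.disjoint_left.1 hBA hb)] at h2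
      exact ⟨⟨hAN h3, h2⟩, h3⟩
  rw [h1]
  exact Finset.card_image_le

lemma shattered {a : ℕ} (ha : 1 ≤ a) {X B N S : Finset (Fin n → ZMod 2)}
    (hW : ¬ HasWheel (a + 1) (X : Set (Fin n → ZMod 2))) (hNX : N ⊆ X) (hBX : B ⊆ X)
    (hBN : Disjoint B N) (hSN : S ⊆ N)
    {β : (Fin n → ZMod 2) → (Fin n → ZMod 2) →ₗ[ZMod 2] ZMod 2}
    (hβ : ∀ b ∈ B, ∀ b' ∈ B, β b b' = if b = b' then 1 else 0)
    (hX : ∀ x ∈ X, x = ∑ b ∈ B, β b x • b)
    (hS : ∀ U ⊆ S, ∃ b ∈ B, (N.filter fun x => β b x = 1) ∩ S = U) : S.card ≤ a + 1 := by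
  classical
  by_contra hcon
  have hBS : Disjoint B S := hBN.mono_right hSN
  set s : Fin (a + 1 + 1) → S := fun i => S.equivFin.symm (Fin.castLE (by omega) i) with hs
  have hsinj : Function.Injective s := fun i j hij =>
    Fin.castLE_injective _ (S.equivFin.symm.injective hij)
  have hW' : HasWheel (a + 1) (dv S β '' ((B ∪ S : Finset (Fin n → ZMod 2)) :
      Set (Fin n → ZMod 2))) := by
    refine ⟨∅, fun i => Pi.single (s i) 1, fun i => Pi.single (s i) 1 + Pi.single (s (i + 1)) 1,
      Set.empty_subset _, ?_, ?_, ⟨LinearMap.funLeft (ZMod 2) (ZMod 2) s, by simp, ?_⟩, ?_⟩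
    · intro i
      refine ⟨s i, ?_, ?_⟩
      · rw [Finset.mem_coe, Finset.mem_union]; exact Or.inr (s i).2
      · rw [dv_mem (s i).2]
    · intro i
      obtain ⟨b, hb, hbU⟩ := hS {(s i : Fin n → ZMod 2), (s (i + 1) : Fin n → ZMod 2)} (by
        intro x hx
        rw [Finset.mem_insert, Finset.mem_singleton] at hx
        rcases hx with rfl | rfl
        · exact (s i).2
        · exact (s (i + 1)).2)
      refine ⟨b, ?_, ?_⟩
      · rw [Finset.mem_coe, Finset.mem_union]; exact Or.inl hb
      · funext x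
        rw [dv_notMem (Finset.disjoint_left.1 hBS hb)]
        have h1 : β b x = 1 ↔ x = s i ∨ x = s (i + 1) := by
          have h2 : (x : Fin n → ZMod 2) ∈ (N.filter fun x => β b x = 1) ∩ S ↔
              (x : Fin n → ZMod 2) ∈ ({(s i : Fin n → ZMod 2), (s (i + 1) : Fin n → ZMod 2)} :
                Finset (Fin n → ZMod 2)) := by rw [hbU]
          rw [Finset.mem_inter, Finset.mem_filter, Finset.mem_insert, Finset.mem_singleton] at h2
          constructor
          · intro h3
            rcases h2.1 ⟨⟨hSN x.2, h3⟩, x.2⟩ with h | h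
            · exact Or.inl (Subtype.ext h)
            · exact Or.inr (Subtype.ext h)
          · rintro (h | h)
            · exact (h2.2 (Or.inl (congrArg Subtype.val h))).1.2
            · exact (h2.2 (Or.inr (congrArg Subtype.val h))).1.2
        have hne : s i ≠ s (i + 1) := fun h => fin_one_ne (m := a + 1) (by omega) i (hsinj h).symm
        show β b x = (Pi.single (s i) 1 + Pi.single (s (i + 1)) 1 : S → ZMod 2) x
        rw [Pi.add_apply]
        by_cases h3 : x = s i
        · rw [h1.2 (Or.inl h3), h3, Pi.single_eq_same, Pi.single_eq_of_ne hne, add_zero]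
        · by_cases h4 : x = s (i + 1)
          · rw [h1.2 (Or.inr h4), h4, Pi.single_eq_same, Pi.single_eq_of_ne hne.symm, zero_add]
          · rw [Pi.single_eq_of_ne h3, Pi.single_eq_of_ne h4, add_zero]
            rcases zmod_cases (β b x) with h5 | h5
            · exact h5
            · rcases h1.1 h5 with h | h
              · exact absurd h h3
              · exact absurd h h4
    · intro i
      funext j
      rw [LinearMap.funLeft_apply]
      show (Pi.single (s i) 1 : S → ZMod 2) (s j) = (Pi.single i 1 : Fin (a + 1 + 1) → ZMod 2) j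
      by_cases hij : i = j
      · subst hij; simp
      · rw [Pi.single_eq_of_ne (fun h => hij (hsinj h).symm), Pi.single_eq_of_ne (Ne.symm hij)]
    · intro i
      have h1 : (Pi.single (s i) 1 + Pi.single (s (i + 1)) 1 + Pi.single (s i) 1 +
          Pi.single (s (i + 1)) 1 : S → ZMod 2) = 0 := by
        rw [add_assoc (Pi.single (s i) 1 + Pi.single (s (i + 1)) 1 : S → ZMod 2)]
        exact ZModModule.add_self _
      rw [h1]
      exact zero_mem _
  exact hW ((dual_wheel (by omega) hBS hβ (fun x hx => hX x (hNX (hSN hx))) hW').mono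
    (Finset.coe_subset.2 (Finset.union_subset hBX (hSN.trans hNX))))

/-- The arithmetic at the end. -/
lemma arith {t d R N s δ : ℕ} (ht : 1 ≤ t) (hR : 2 ≤ R) (hRt : t + 1 ≤ R)
    (hNR : N + R ≤ t * R) (hs : s = (R - 2) / (2 * t)) (hδ : δ = 8 * t ^ 2 * d + 1)
    (h : (s + 1) * δ * (R - (t * s + 1)) ≤ 2 * (N - s) * d * R) : False := by
  have h1 : 2 * t * s ≤ R - 2 := by
    rw [hs]; exact Nat.mul_div_le _ _
  have h2 : R - 2 < 2 * t * (s + 1) := by
    rw [hs]
    exact Nat.lt_mul_div_succ _ (by omega)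
  have h3 : R ≤ 2 * (R - (t * s + 1)) := by
    have : 2 * (t * s) ≤ R - 2 := by rw [← mul_assoc]; exact h1
    omega
  have h4 : (s + 1) * δ * R ≤ 4 * N * d * R := by
    calc (s + 1) * δ * R ≤ (s + 1) * δ * (2 * (R - (t * s + 1))) := Nat.mul_le_mul_left _ h3
      _ = 2 * ((s + 1) * δ * (R - (t * s + 1))) := by ring
      _ ≤ 2 * (2 * (N - s) * d * R) := Nat.mul_le_mul_left _ h
      _ ≤ 2 * (2 * N * d * R) := by
          refine Nat.mul_le_mul_left _ (Nat.mul_le_mul_right _ (Nat.mul_le_mul_right _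
            (Nat.mul_le_mul_left _ (Nat.sub_le _ _))))
      _ = 4 * N * d * R := by ring
  have h5 : (s + 1) * δ ≤ 4 * N * d := Nat.le_of_mul_le_mul_right h4 (by omega)
  have h6 : (R - 1) * δ ≤ 8 * t * d * N := by
    calc (R - 1) * δ ≤ (2 * t * (s + 1)) * δ := Nat.mul_le_mul_right _ (by omega)
      _ = 2 * t * ((s + 1) * δ) := by ring
      _ ≤ 2 * t * (4 * N * d) := Nat.mul_le_mul_left _ h5
      _ = 8 * t * d * N := by ring
  obtain ⟨Q, rfl⟩ : ∃ Q, R = Q + 1 := ⟨R - 1, by omega⟩
  rw [Nat.add_sub_cancel, hδ] at h6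
  have h7 : 8 * t * d * N + 8 * t * d * (Q + 1) ≤ 8 * t * d * (t * (Q + 1)) := by
    rw [← mul_add]
    exact Nat.mul_le_mul_left _ hNR
  have h8 : t ≤ Q := by omega
  have h9 : 8 * t * d * t ≤ 8 * t * d * Q := Nat.mul_le_mul_left _ h8
  nlinarith [h6, h7, h9, h8]

/-- A nonempty binary configuration of nonzero vectors without a wheel minor with `a + 2` spokes
has a nonempty cocycle with at most `8 t ^ 2 (a + 1) + 2` elements, `t = choose (2 a + 1) a`. -/
theorem small_cocircuit (a : ℕ) (ha : 1 ≤ a) (X : Finset (Fin n → ZMod 2))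
    (h0 : (0 : Fin n → ZMod 2) ∉ X) (hX : X.Nonempty)
    (hW : ¬ HasWheel (a + 1) (X : Set (Fin n → ZMod 2))) :
    ∃ f : (Fin n → ZMod 2) →ₗ[ZMod 2] ZMod 2, (X.filter fun x => f x = 1).Nonempty ∧
      (X.filter fun x => f x = 1).card ≤ 8 * ((2 * a + 1).choose a) ^ 2 * (a + 1) + 2 := by
  classical
  by_contra hcon
  push Not at hcon
  set t := (2 * a + 1).choose a with ht
  have htpos : 1 ≤ t := Nat.choose_pos (by omega)
  obtain ⟨B, β, hBX, hBcard, hβ, hXβ⟩ := exists_basis_data X
  set R := B.card with hR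
  have hdens : X.card ≤ t * R := by
    have := density a R (Fin n → ZMod 2) X h0 hW (by rw [hBcard])
    exact this
  -- the number of elements is large
  have hXcard : 8 * t ^ 2 * (a + 1) + 3 ≤ X.card := by
    obtain ⟨x, hx⟩ := hX
    have hx0 : x ≠ 0 := fun h => h0 (h ▸ hx)
    obtain ⟨b, hb, hbx⟩ : ∃ b ∈ B, β b x ≠ 0 := by
      by_contra hc
      push Not at hc
      apply hx0
      rw [hXβ x hx]
      refine Finset.sum_eq_zero fun b hb => ?_
      rw [hc b hb, zero_smul]
    have h1 : (X.filter fun y => β b y = 1).Nonempty :=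
      ⟨x, Finset.mem_filter.2 ⟨hx, (zmod_cases _).resolve_left hbx⟩⟩
    have h2 := hcon (β b) h1
    have h3 := Finset.card_filter_le X (fun y => β b y = 1)
    omega
  have hRt : t + 1 ≤ R := by
    by_contra hc
    have h1 : R ≤ t := by omega
    have h2 : t * R ≤ t * t := Nat.mul_le_mul_left _ h1
    have h3 : t * t ≤ 8 * t ^ 2 * (a + 1) := by
      calc t * t = t ^ 2 * 1 := by ring
        _ ≤ t ^ 2 * (8 * (a + 1)) := Nat.mul_le_mul_left _ (by omega)
        _ = _ := by ring
    omega
  set N := X \ B with hN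
  have hNX : N ⊆ X := Finset.sdiff_subset
  have hBN : Disjoint B N := Finset.disjoint_sdiff
  have hNcard : N.card + R ≤ t * R := by
    have := Finset.card_sdiff_add_card_eq_card hBX
    rw [← hN, ← hR] at this
    omega
  set T : (Fin n → ZMod 2) → Finset (Fin n → ZMod 2) := fun b => N.filter fun x => β b x = 1
    with hT
  set δ := 8 * t ^ 2 * (a + 1) + 1 with hδ
  have hsep : ∀ i ∈ B, ∀ j ∈ B, i ≠ j → δ ≤ (symmDiff (T i) (T j)).card := by
    intro i hi j hj hij
    have h1 : (X.filter fun x => (β i + β j) x = 1).Nonempty := by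
      refine ⟨i, Finset.mem_filter.2 ⟨hBX hi, ?_⟩⟩
      rw [LinearMap.add_apply, hβ i hi i hi, hβ j hj i hi, if_pos rfl, if_neg (Ne.symm hij),
        add_zero]
    have h2 := hcon (β i + β j) h1
    have h3 : (X.filter fun x => (β i + β j) x = 1) ⊆ symmDiff (T i) (T j) ∪ {i, j} := by
      intro x hx
      rw [Finset.mem_filter, LinearMap.add_apply] at hx
      rw [Finset.mem_union, Finset.mem_insert, Finset.mem_singleton]
      by_cases hxB : x ∈ B
      · right
        by_contra hc
        push Not at hc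
        rw [hβ i hi x hxB, hβ j hj x hxB, if_neg (Ne.symm hc.1), if_neg (Ne.symm hc.2)] at hx
        simp at hx
      · left
        have hxN : x ∈ N := Finset.mem_sdiff.2 ⟨hx.1, hxB⟩
        rw [Finset.mem_symmDiff]
        simp only [hT, Finset.mem_filter]
        rcases zmod_cases (β i x) with h4 | h4 <;> rcases zmod_cases (β j x) with h5 | h5
        · rw [h4, h5] at hx; simp at hx
        · right; exact ⟨⟨hxN, h5⟩, fun h => by rw [h4] at h; simp at h⟩
        · left; exact ⟨⟨hxN, h4⟩, fun h => by rw [h5] at h; simp at h⟩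
        · exfalso
          rw [h4, h5] at hx
          exact absurd hx.2 (by decide)
    have h4 := Finset.card_le_card h3
    have h5 := Finset.card_union_le (symmDiff (T i) (T j)) {i, j}
    have h6 := Finset.card_le_two (a := i) (b := j)
    omega
  have hgrow : ∀ A ⊆ N, (B.image fun i => T i ∩ A).card ≤ t * A.card + 1 := fun A hA =>
    traces ha hW hNX hBX hBN hA hβ hXβ
  have hd : ∀ S ⊆ N, (∀ U ⊆ S, ∃ i ∈ B, T i ∩ S = U) → S.card ≤ a + 1 := fun S hS hU =>
    shattered ha hW hNX hBX hBN hS hβ hXβ hU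
  have hRN : R ≤ t * N.card + 1 := by
    have h1 := hgrow N (Finset.Subset.refl N)
    rw [Finset.card_image_of_injOn] at h1
    · exact h1
    · intro i hi j hj hij
      by_contra hne
      have h2 := hsep i hi j hj hne
      simp only [hT] at hij
      rw [Finset.inter_eq_left.2 (Finset.filter_subset _ _),
        Finset.inter_eq_left.2 (Finset.filter_subset _ _)] at hij
      simp only [hT] at h2
      rw [hij, symmDiff_self] at h2
      simp at h2
  set s := (R - 2) / (2 * t) with hs
  have hsN : s ≤ N.card := by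
    have h1 : 2 * t * s ≤ R - 2 := by rw [hs]; exact Nat.mul_div_le _ _
    have h2 : t * (2 * s) ≤ t * N.card := by
      have : t * (2 * s) = 2 * t * s := by ring
      omega
    have h3 := Nat.le_of_mul_le_mul_left h2 htpos
    omega
  have hpack := packing B N T δ t (a + 1) s (fun i _ => Finset.filter_subset _ _) hsep hgrow hd hsN
  exact arith (d := a + 1) htpos (by omega) hRt hNcard hs hδ hpack

end

end Pool.Agent.Lib.P68998d
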