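import Mathlib

/-!
Unit distance pairs of a set family, by induction on the ground set.

For a family `F` of subsets of `A` all of whose shattered sets have at most `d` elements, the number
of pairs `T, insert a T` in `F` (`a` in `A`, `a` not in `T`) is at most `d * F.card`.
Proof: induction on `A`. For `a` in `A` put `F0 = {T in F : a not in T}`, `F1 = {T : a not in T, insert a T in F}`
(the images of the members containing `a`), `U = F0 union F1`, `I = F0 inter F1`. Then
`F.card = U.card + I.card`, the pairs in direction `a` number `I.card`, and for every other direction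
`a'` a pair of `F0` or of `F1` is a pair of `U`, and a common pair is one of `I`; so
`ud A F <= I.card + ud (A.erase a) U + ud (A.erase a) I`. A set shattered by `U` is shattered by `F`;
if `I` shatters `S` then `F` shatters `insert a S`, so `I` has the bound `d - 1` (and `I` is empty if `d = 0`).

`weighted_le` (layer cake): for `j = 1 .. B.card` let `F_j` be the family of the `U` in the powerset of `A`
with `w U >= j`, `w U = #{i in B : T i inter A = U}`; `min (w U) (w U') = #{j : 1 <= j <= B.card, both >= j}`,
`sum_j F_j.card = sum_U w U = B.card`, and shattered sets of `F_j` (they are subsets of `A` if nonempty family)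
satisfy the hypothesis since `w U >= 1` gives an `i`.
-/

namespace Pool.Agent.Lib.P68998d

open Finset

/-- The number of pairs `T, insert a T` of members of `F` with `a` in `A`, `a` not in `T`. -/
def ud {γ : Type*} [DecidableEq γ] (A : Finset γ) (F : Finset (Finset γ)) : ℕ :=
  ∑ a ∈ A, (F.filter fun T => a ∉ T ∧ insert a T ∈ F).card

/-- The pairs of `F` in the direction `a`. -/
private def dirPairs {γ : Type*} [DecidableEq γ] (a : γ) (F : Finset (Finset γ)) :
    Finset (Finset γ) :=
  F.filter fun T => a ∉ T ∧ insert a T ∈ F

private theorem mem_dirPairs {γ : Type*} [DecidableEq γ] {a : γ} {F : Finset (Finset γ)}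
    {T : Finset γ} : T ∈ dirPairs a F ↔ T ∈ F ∧ a ∉ T ∧ insert a T ∈ F := by
  simp [dirPairs]

private theorem dirPairs_split {γ : Type*} [DecidableEq γ] {a b : γ} (hab : b ≠ a)
    (F : Finset (Finset γ)) :
    (dirPairs b F).card ≤
      (dirPairs b (F.nonMemberSubfamily a ∪ F.memberSubfamily a)).card +
      (dirPairs b (F.nonMemberSubfamily a ∩ F.memberSubfamily a)).card := by
  rw [← card_memberSubfamily_add_card_nonMemberSubfamily a (dirPairs b F)]
  have h0 : (dirPairs b F).nonMemberSubfamily a ⊆ dirPairs b (F.nonMemberSubfamily a) := by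
    intro T hT
    rw [mem_nonMemberSubfamily, mem_dirPairs] at hT
    rw [mem_dirPairs, mem_nonMemberSubfamily, mem_nonMemberSubfamily]
    obtain ⟨⟨h1, h2, h3⟩, h4⟩ := hT
    refine ⟨⟨h1, h4⟩, h2, h3, ?_⟩
    rw [mem_insert, not_or]
    exact ⟨hab.symm, h4⟩
  have h1 : (dirPairs b F).memberSubfamily a ⊆ dirPairs b (F.memberSubfamily a) := by
    intro T hT
    rw [mem_memberSubfamily, mem_dirPairs] at hT
    rw [mem_dirPairs, mem_memberSubfamily, mem_memberSubfamily]
    obtain ⟨⟨h1, h2, h3⟩, h4⟩ := hT
    rw [mem_insert, not_or] at h2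
    refine ⟨⟨h1, h4⟩, h2.2, ?_, ?_⟩
    · rw [insert_comm]
      exact h3
    · rw [mem_insert, not_or]
      exact ⟨hab.symm, h4⟩
  have h2 : dirPairs b (F.nonMemberSubfamily a) ∪ dirPairs b (F.memberSubfamily a) ⊆
      dirPairs b (F.nonMemberSubfamily a ∪ F.memberSubfamily a) := by
    intro T hT
    rw [mem_union, mem_dirPairs, mem_dirPairs] at hT
    rw [mem_dirPairs, mem_union, mem_union]
    rcases hT with hT | hT
    · exact ⟨Or.inl hT.1, hT.2.1, Or.inl hT.2.2⟩
    · exact ⟨Or.inr hT.1, hT.2.1, Or.inr hT.2.2⟩
  have h3 : dirPairs b (F.nonMemberSubfamily a) ∩ dirPairs b (F.memberSubfamily a) ⊆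
      dirPairs b (F.nonMemberSubfamily a ∩ F.memberSubfamily a) := by
    intro T hT
    rw [mem_inter, mem_dirPairs, mem_dirPairs] at hT
    rw [mem_dirPairs, mem_inter, mem_inter]
    exact ⟨⟨hT.1.1, hT.2.1⟩, hT.1.2.1, hT.1.2.2, hT.2.2.2⟩
  have e := card_union_add_card_inter (dirPairs b (F.nonMemberSubfamily a))
    (dirPairs b (F.memberSubfamily a))
  have c0 := card_le_card h0
  have c1 := card_le_card h1
  have c2 := card_le_card h2
  have c3 := card_le_card h3
  omega

private theorem shatters_union {γ : Type*} [DecidableEq γ] {a : γ} {F : Finset (Finset γ)}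
    {S : Finset γ}
    (h : (F.nonMemberSubfamily a ∪ F.memberSubfamily a).Shatters S) : F.Shatters S := by
  have ha : a ∉ S := by
    obtain ⟨u, hu, hSu⟩ := h (Subset.refl S)
    intro haS
    rw [← hSu, mem_inter] at haS
    rw [mem_union, mem_nonMemberSubfamily, mem_memberSubfamily] at hu
    rcases hu with hu | hu
    · exact hu.2 haS.2
    · exact hu.2 haS.2
  intro t ht
  obtain ⟨u, hu, hSu⟩ := h ht
  rw [mem_union, mem_nonMemberSubfamily, mem_memberSubfamily] at hu
  rcases hu with hu | hu
  · exact ⟨u, hu.1, hSu⟩
  · refine ⟨insert a u, hu.1, ?_⟩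
    rw [inter_insert_of_notMem ha]
    exact hSu

private theorem shatters_inter {γ : Type*} [DecidableEq γ] {a : γ} {F : Finset (Finset γ)}
    {S : Finset γ}
    (h : (F.nonMemberSubfamily a ∩ F.memberSubfamily a).Shatters S) :
    a ∉ S ∧ F.Shatters (insert a S) := by
  have ha : a ∉ S := by
    obtain ⟨u, hu, hSu⟩ := h (Subset.refl S)
    intro haS
    rw [← hSu, mem_inter] at haS
    rw [mem_inter, mem_nonMemberSubfamily, mem_memberSubfamily] at hu
    exact hu.1.2 haS.2
  refine ⟨ha, ?_⟩
  intro t ht
  have ht' : t.erase a ⊆ S := by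
    intro x hx
    rw [mem_erase] at hx
    have := ht hx.2
    rw [mem_insert] at this
    rcases this with h1 | h1
    · exact absurd h1 hx.1
    · exact h1
  obtain ⟨u, hu, hSu⟩ := h ht'
  rw [mem_inter, mem_nonMemberSubfamily, mem_memberSubfamily] at hu
  by_cases hat : a ∈ t
  · refine ⟨insert a u, hu.2.1, ?_⟩
    rw [← insert_inter_distrib, hSu, insert_erase hat]
  · refine ⟨u, hu.1.1, ?_⟩
    rw [insert_inter_of_notMem hu.1.2, hSu, erase_eq_of_notMem hat]

theorem ud_le {γ : Type*} [DecidableEq γ] (d : ℕ) (A : Finset γ) (F : Finset (Finset γ))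
    (hF : ∀ T ∈ F, T ⊆ A) (hd : ∀ S : Finset γ, F.Shatters S → S.card ≤ d) :
    ud A F ≤ d * F.card := by
  induction A using Finset.induction_on generalizing F d with
  | empty => simp [ud]
  | insert a A ha ih =>
    have hU : ud A (F.nonMemberSubfamily a ∪ F.memberSubfamily a) ≤
        d * (F.nonMemberSubfamily a ∪ F.memberSubfamily a).card := by
      apply ih
      · intro T hT x hx
        rw [mem_union, mem_nonMemberSubfamily, mem_memberSubfamily] at hT
        rcases hT with hT | hT
        · have h1 := hF T hT.1 hx
          rw [mem_insert] at h1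
          rcases h1 with h1 | h1
          · rw [h1] at hx
            exact absurd hx hT.2
          · exact h1
        · have h1 := hF _ hT.1 (mem_insert_of_mem hx)
          rw [mem_insert] at h1
          rcases h1 with h1 | h1
          · rw [h1] at hx
            exact absurd hx hT.2
          · exact h1
      · intro S hS
        exact hd S (shatters_union hS)
    have hI : ud A (F.nonMemberSubfamily a ∩ F.memberSubfamily a) ≤
        (d - 1) * (F.nonMemberSubfamily a ∩ F.memberSubfamily a).card := by
      apply ih
      · intro T hT x hx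
        rw [mem_inter, mem_nonMemberSubfamily, mem_memberSubfamily] at hT
        have h1 := hF T hT.1.1 hx
        rw [mem_insert] at h1
        rcases h1 with h1 | h1
        · rw [h1] at hx
          exact absurd hx hT.1.2
        · exact h1
      · intro S hS
        obtain ⟨haS, hS'⟩ := shatters_inter hS
        have := hd _ hS'
        rw [card_insert_of_notMem haS] at this
        omega
    have hId : (F.nonMemberSubfamily a ∩ F.memberSubfamily a).card +
        (d - 1) * (F.nonMemberSubfamily a ∩ F.memberSubfamily a).card ≤
        d * (F.nonMemberSubfamily a ∩ F.memberSubfamily a).card := by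
      rcases (F.nonMemberSubfamily a ∩ F.memberSubfamily a).eq_empty_or_nonempty with h | h
      · rw [h]
        simp
      · have h0 : (F.nonMemberSubfamily a ∩ F.memberSubfamily a).Shatters ∅ := by
          intro t ht
          obtain ⟨u, hu⟩ := h
          refine ⟨u, hu, ?_⟩
          rw [subset_empty] at ht
          rw [ht]
          simp
        obtain ⟨haS, hS'⟩ := shatters_inter h0
        have := hd _ hS'
        rw [card_insert_of_notMem haS] at this
        obtain ⟨e, rfl⟩ : ∃ e, d = e + 1 := ⟨d - 1, by omega⟩
        rw [Nat.add_sub_cancel, Nat.succ_mul]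
        omega
    have hsum : ud (insert a A) F ≤ (F.nonMemberSubfamily a ∩ F.memberSubfamily a).card +
        (ud A (F.nonMemberSubfamily a ∪ F.memberSubfamily a) +
          ud A (F.nonMemberSubfamily a ∩ F.memberSubfamily a)) := by
      unfold ud
      rw [sum_insert ha, ← sum_add_distrib]
      apply Nat.add_le_add
      · apply card_le_card
        intro T hT
        rw [mem_filter] at hT
        rw [mem_inter, mem_nonMemberSubfamily, mem_memberSubfamily]
        exact ⟨⟨hT.1, hT.2.1⟩, hT.2.2, hT.2.1⟩
      · apply sum_le_sum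
        intro b hb
        have hab : b ≠ a := by
          rintro rfl
          exact ha hb
        exact dirPairs_split hab F
    have hcard : F.card = (F.nonMemberSubfamily a ∪ F.memberSubfamily a).card +
        (F.nonMemberSubfamily a ∩ F.memberSubfamily a).card := by
      rw [card_union_add_card_inter, ← card_memberSubfamily_add_card_nonMemberSubfamily a F,
        Nat.add_comm]
    rw [hcard, Nat.mul_add]
    omega

private theorem sum_lt_eq {n w : ℕ} (h : w ≤ n) :
    ∑ j ∈ range n, (if j < w then 1 else 0) = w := by
  rw [← card_filter]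
  have : (range n).filter (fun j => j < w) = range w := by
    ext j
    simp only [mem_filter, mem_range]
    omega
  rw [this, card_range]

theorem weighted_le {γ ι : Type*} [DecidableEq γ] [DecidableEq ι] (B : Finset ι)
    (T : ι → Finset γ) (A : Finset γ) (d : ℕ)
    (hd : ∀ S ⊆ A, (∀ U ⊆ S, ∃ i ∈ B, T i ∩ S = U) → S.card ≤ d) :
    ∑ a ∈ A, ∑ U ∈ (A.erase a).powerset,
      min (B.filter fun i => T i ∩ A = U).card (B.filter fun i => T i ∩ A = insert a U).card ≤
      d * B.card := by
  classical
  set w : Finset γ → ℕ := fun U => (B.filter fun i => T i ∩ A = U).card with hw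
  have hwB : ∀ U, w U ≤ B.card := fun U => card_le_card (filter_subset _ _)
  set F : ℕ → Finset (Finset γ) := fun j => A.powerset.filter fun U => j < w U with hFdef
  have hmemF : ∀ j U, U ∈ F j ↔ U ⊆ A ∧ j < w U := by
    intro j U
    simp [hFdef]
  have hud : ∀ j, ud A (F j) ≤ d * (F j).card := by
    intro j
    apply ud_le
    · intro U hU
      exact ((hmemF j U).1 hU).1
    · intro S hS
      have hSA : S ⊆ A := by
        obtain ⟨u, hu, hSu⟩ := hS (Subset.refl S)
        rw [hmemF] at hu
        rw [← hSu]
        exact inter_subset_right.trans hu.1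
      apply hd S hSA
      intro U hU
      obtain ⟨u, hu, hSu⟩ := hS hU
      rw [hmemF] at hu
      have hpos : 0 < (B.filter fun i => T i ∩ A = u).card := lt_of_le_of_lt (Nat.zero_le j) hu.2
      obtain ⟨i, hi⟩ := card_pos.1 hpos
      rw [mem_filter] at hi
      refine ⟨i, hi.1, ?_⟩
      rw [← hSu, ← hi.2]
      ext x
      simp only [mem_inter]
      constructor
      · rintro ⟨h1, h2⟩
        exact ⟨h2, h1, hSA h2⟩
      · rintro ⟨h1, h2, _⟩
        exact ⟨h2, h1⟩
  have hleft : ∑ a ∈ A, ∑ U ∈ (A.erase a).powerset, min (w U) (w (insert a U)) =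
      ∑ j ∈ range B.card, ud A (F j) := by
    unfold ud
    refine Eq.trans ?_ sum_comm
    apply sum_congr rfl
    intro a ha
    have hcount : ∀ j, ((F j).filter fun T => a ∉ T ∧ insert a T ∈ F j).card =
        ∑ U ∈ (A.erase a).powerset, (if j < min (w U) (w (insert a U)) then 1 else 0) := by
      intro j
      rw [← card_filter]
      congr 1
      ext U
      simp only [mem_filter, mem_powerset, lt_min_iff, hmemF]
      constructor
      · rintro ⟨⟨h1, h2⟩, h3, h4, h5⟩
        refine ⟨?_, h2, h5⟩
        intro x hx
        rw [mem_erase]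
        refine ⟨?_, h1 hx⟩
        rintro rfl
        exact h3 hx
      · rintro ⟨h1, h2, h3⟩
        refine ⟨⟨h1.trans (erase_subset _ _), h2⟩, ?_, ?_, h3⟩
        · intro h4
          have := h1 h4
          rw [mem_erase] at this
          exact this.1 rfl
        · exact insert_subset ha (h1.trans (erase_subset _ _))
    rw [sum_congr rfl (fun j _ => hcount j), sum_comm]
    apply sum_congr rfl
    intro U _
    rw [sum_lt_eq]
    exact (min_le_left _ _).trans (hwB U)
  have hright : ∑ j ∈ range B.card, (F j).card = B.card := by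
    have h1 : ∀ j, (F j).card = ∑ U ∈ A.powerset, (if j < w U then 1 else 0) := by
      intro j
      rw [← card_filter]
    rw [sum_congr rfl (fun j _ => h1 j), sum_comm,
      sum_congr rfl (fun U _ => sum_lt_eq (hwB U))]
    symm
    apply card_eq_sum_card_fiberwise
    intro i _
    simp only [coe_powerset, Set.mem_preimage, Set.mem_powerset_iff, coe_subset]
    exact inter_subset_right
  calc ∑ a ∈ A, ∑ U ∈ (A.erase a).powerset,
      min (B.filter fun i => T i ∩ A = U).card (B.filter fun i => T i ∩ A = insert a U).card
      = ∑ j ∈ range B.card, ud A (F j) := hleft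
    _ ≤ ∑ j ∈ range B.card, d * (F j).card := sum_le_sum fun j _ => hud j
    _ = d * B.card := by rw [← mul_sum, hright]

end Pool.Agent.Lib.P68998d
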